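import Pool.Agent.Helper46.EN.Hurwitz
import Pool.Agent.Helper82.EN.Defs
import Pool.Agent.Helper95.EN.Motion
import Pool.Agent.Helper95.EN.Fiber

/-! Hurwitz' theorem in the forms used in project EN (MP_9ee088_an). -/

set_option autoImplicit false
open Set Metric Filter Topology

namespace Pool.Agent.Helper46.EN

open Helper95.EN Pool.Agent.Helper82.EN

theorem hurwitzStatement : HurwitzStatement := by
  intro F hF z0 r hr hz
  obtain ⟨δ, hδ, h⟩ := hurwitz_disc hF z0 hr hz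
  exact ⟨δ, hδ, fun G hG hGF => (h G hG hGF).1⟩

/-- small circles around `z0` contain no zero, and the disc contains at most the zero `z0` -/
lemma small_disc {F : ℂ → ℂ} (hF : Differentiable ℂ F) (hne : ∃ z, F z ≠ 0) (z0 : ℂ) :
    ∃ e0 > 0, ∀ z ∈ closedBall z0 e0, F z = 0 → z = z0 := by
  have h1 : ∀ᶠ z in 𝓝[≠] z0, F z ≠ 0 := by
    rcases (hF.analyticAt z0).eventually_eq_zero_or_eventually_ne_zero with h | h
    · exfalso
      have h2 := ord_ne_top hF hne z0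
      exact h2 (analyticOrderAt_eq_top.2 h)
    · exact h
  rw [eventually_nhdsWithin_iff] at h1
  obtain ⟨e, he, hb⟩ := Metric.eventually_nhds_iff_ball.1 h1
  refine ⟨e / 2, by positivity, fun z hz h0 => ?_⟩
  by_contra hne'
  exact hb z (closedBall_subset_ball (by linarith) hz) hne' h0

theorem hurwitz_local {F : ℂ → ℂ} (hF : Differentiable ℂ F) (hne : ∃ z, F z ≠ 0) (z0 : ℂ) :
    ∃ e0 > 0, ∀ e, 0 < e → e ≤ e0 → ∃ δ > 0, ∀ G : ℂ → ℂ, Differentiable ℂ G →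
      (∀ z ∈ closedBall z0 e, ‖G z - F z‖ < δ) →
        cnt G (ball z0 e) = analyticOrderNatAt F z0 ∧ ∀ z ∈ sphere z0 e, G z ≠ 0 := by
  obtain ⟨e0, he0, h⟩ := small_disc hF hne z0
  refine ⟨e0, he0, fun e he hee => ?_⟩
  have hz : ∀ z ∈ sphere z0 e, F z ≠ 0 := by
    intro z hz h0
    have h1 := h z (closedBall_subset_closedBall hee (sphere_subset_closedBall hz)) h0
    rw [h1, mem_sphere, dist_self] at hz
    linarith
  obtain ⟨δ, hδ, h2⟩ := hurwitz_disc hF z0 he hz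
  refine ⟨δ, hδ, fun G hG hGF => ?_⟩
  obtain ⟨h3, h4⟩ := h2 G hG hGF
  refine ⟨?_, h4⟩
  rw [h3]
  exact cnt_ball_single (mem_ball_self he) fun z hz h0 =>
    h z (closedBall_subset_closedBall hee (ball_subset_closedBall hz)) h0

theorem hurwitzLocal : HurwitzLocal := by
  intro F hF hne z0
  obtain ⟨e0, he0, h⟩ := hurwitz_local hF hne z0
  filter_upwards [Ioc_mem_nhdsGT he0] with ρ hρ
  obtain ⟨δ, hδ, h1⟩ := h ρ hρ.1 hρ.2
  exact ⟨δ, hδ, fun G hG hGF => (h1 G hG hGF).1⟩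

/-- the two counts agree -/
theorem cz_eq_cnt {F : ℂ → ℂ} (hF : Differentiable ℂ F) (hne : ∃ z, F z ≠ 0) {T : Set ℂ}
    (hfin : {z ∈ T | F z = 0}.Finite) : cz F T = (cnt F T : ENNReal) := by
  classical
  rw [cnt_eq_toFinset hfin, ← cz_inter_zeros, cz_eq_indicator]
  rw [tsum_eq_sum (s := hfin.toFinset)]
  · push_cast
    refine Finset.sum_congr rfl fun z hz => ?_
    rw [Set.Finite.mem_toFinset] at hz
    rw [indicator_of_mem (show z ∈ T ∩ {z | F z = 0} from hz)]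
    unfold od
    rw [← Nat.cast_analyticOrderNatAt (ord_ne_top hF hne z)]
    simp
  · intro z hz
    rw [Set.Finite.mem_toFinset] at hz
    exact indicator_of_notMem hz _

theorem od_eq_nat {F : ℂ → ℂ} (hF : Differentiable ℂ F) (hne : ∃ z, F z ≠ 0) (z : ℂ) :
    od F z = (analyticOrderNatAt F z : ENNReal) := by
  unfold od
  rw [← Nat.cast_analyticOrderNatAt (ord_ne_top hF hne z)]
  simp

/-- **Hurwitz** (block A1) -/
theorem hurwitz {g : ℂ → ℂ} (hg : Differentiable ℂ g) (hne : ∃ z, g z ≠ 0) (z0 : ℂ) :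
    ∃ e0 > 0, ∀ e, 0 < e → e ≤ e0 → ∃ d > 0, ∀ h : ℂ → ℂ, Differentiable ℂ h →
      (∀ z ∈ closedBall z0 e, ‖h z - g z‖ < d) →
        cz h (ball z0 e) = od g z0 ∧ ∀ z ∈ sphere z0 e, h z ≠ 0 := by
  obtain ⟨e0, he0, H⟩ := hurwitz_local hg hne z0
  refine ⟨e0, he0, fun e he hee => ?_⟩
  obtain ⟨δ, hδ, h1⟩ := H e he hee
  refine ⟨δ, hδ, fun h hh hhg => ?_⟩
  obtain ⟨h2, h3⟩ := h1 h hh hhg
  have hne' : ∃ z, h z ≠ 0 := by
    refine ⟨z0 + e, h3 _ ?_⟩
    rw [mem_sphere, dist_eq_norm]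
    simp [abs_of_pos he]
  have hfin : {z ∈ ball z0 e | h z = 0}.Finite :=
    (finite_zeros hh hne' (isCompact_closedBall z0 e)).subset fun z hz => ⟨ball_subset_closedBall hz.1, hz.2⟩
  refine ⟨?_, h3⟩
  rw [cz_eq_cnt hh hne' hfin, h2, od_eq_nat hg hne]

end Pool.Agent.Helper46.EN
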