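import Pool.Agent.Helper18.EP.Defs

/-! Block EP-ZONE: the critical zone `{|vv a x| |vv a y| < H |a|}` of project EP (MP_9ee088_an) is a zone and its part in the
unit square has volume at most `C log|a| / |a|`. -/

set_option autoImplicit false
open MeasureTheory Real Set Filter

namespace Pool.Agent.Helper46.EN

open Pool.Agent.Helper18.UC Pool.Agent.Helper18.UY

private lemma vv_cont (a : ℝ) : Continuous (vv a) := by
  unfold vv
  fun_prop

private lemma vv_per (a x : ℝ) (k : ℤ) : vv a (x + k) = vv a x := by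
  unfold vv
  have e : 2 * π * (x + k) = 2 * π * x + k * (2 * π) := by ring
  rw [e, Real.cos_add_int_mul_two_pi]

theorem zone_zn2 (a H : ℝ) : Helper18.EP.Zone (Helper18.EP.zn a H) := by
  have hc : Continuous fun q : ℝ × ℝ => |vv a q.1| * |vv a q.2| := by
    have := vv_cont a
    fun_prop
  refine ⟨(isOpen_lt hc continuous_const).measurableSet, fun q k l => ?_, fun q => ?_⟩
  · show |vv a (sh q k l).1| * |vv a (sh q k l).2| < H ↔ |vv a q.1| * |vv a q.2| < H
    unfold sh
    simp only [vv_per]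
  · show |vv a q.swap.1| * |vv a q.swap.2| < H ↔ |vv a q.1| * |vv a q.2| < H
    rw [Prod.fst_swap, Prod.snd_swap, mul_comm]

/-- the cosine near its zeros -/
private theorem cos_low {x : ℝ} (h0 : 0 ≤ x) (h1 : x ≤ 1) :
    4 * |x - 1 / 4| ≤ |Real.cos (2 * π * x)| ∨ 4 * |x - 3 / 4| ≤ |Real.cos (2 * π * x)| := by
  have hpi := Real.pi_pos
  have key : ∀ u : ℝ, |u| ≤ 1 / 4 → 4 * |u| ≤ |Real.sin (2 * π * u)| := by
    intro u hu
    have h2 : |Real.sin (2 * π * u)| = Real.sin (2 * π * |u|) := by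
      rcases le_total 0 u with h | h
      · rw [abs_of_nonneg h, abs_of_nonneg]
        rw [abs_of_nonneg h] at hu
        refine Real.sin_nonneg_of_nonneg_of_le_pi (by positivity) ?_
        nlinarith
      · rw [abs_of_nonpos h]
        rw [abs_of_nonpos h] at hu
        have h3 : 2 * π * -u = -(2 * π * u) := by ring
        rw [h3, Real.sin_neg, abs_of_nonpos]
        have h4 : 0 ≤ Real.sin (2 * π * -u) :=
          Real.sin_nonneg_of_nonneg_of_le_pi (by nlinarith) (by nlinarith)
        rw [h3, Real.sin_neg] at h4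
        linarith
    rw [h2]
    have h3 := Real.mul_le_sin (x := 2 * π * |u|) (by positivity) (by nlinarith)
    refine le_trans (le_of_eq ?_) h3
    field_simp
    ring
  rcases le_total x (1 / 2) with h | h
  · left
    have h2 : Real.cos (2 * π * x) = -Real.sin (2 * π * (x - 1 / 4)) := by
      have e : 2 * π * (x - 1 / 4) = 2 * π * x - π / 2 := by ring
      rw [e, Real.sin_sub_pi_div_two, neg_neg]
    rw [h2, abs_neg]
    refine key _ ?_
    rw [abs_le]
    constructor <;> linarith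
  · right
    have h2 : Real.cos (2 * π * x) = Real.sin (2 * π * (x - 3 / 4)) := by
      have e : 2 * π * (x - 3 / 4) = 2 * π * x - (π + π / 2) := by ring
      rw [e, Real.sin_sub, Real.cos_add, Real.sin_add]
      simp
    rw [h2]
    refine key _ ?_
    rw [abs_le]
    constructor <;> linarith

/-- the set where the derivative is small, in one variable -/
def lowSet (a h : ℝ) : Set ℝ := {x | |vv a x| ≤ h} ∩ Ico (0 : ℝ) 1

private lemma measurable_lowSet (a h : ℝ) : MeasurableSet (lowSet a h) :=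
  (isClosed_le (vv_cont a).abs continuous_const).measurableSet.inter measurableSet_Ico

lemma vol_lowSet {a h : ℝ} (hh : 0 ≤ h) (ha : 0 < |a|) :
    volume (lowSet a h) ≤ ENNReal.ofReal ((h + 2) / (6 * |a|)) := by
  set ε : ℝ := (h + 2) / (6 * |a|) with hε
  have hε0 : 0 ≤ ε := by positivity
  have hsub : lowSet a h ⊆
      Icc (1 / 4 - ε / 4) (1 / 4 + ε / 4) ∪ Icc (3 / 4 - ε / 4) (3 / 4 + ε / 4) := by
    rintro x ⟨h1, h2, h3⟩
    have h4 : |vv a x| ≤ h := h1
    have hpi := Real.pi_gt_three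
    have h5 : 2 * π * |a| * |Real.cos (2 * π * x)| ≤ |vv a x| + 2 := by
      unfold vv
      have e : 2 * π * |a| * |Real.cos (2 * π * x)| = |2 * π * a * Real.cos (2 * π * x)| := by
        rw [abs_mul, abs_mul, abs_of_pos (by positivity : (0:ℝ) < 2 * π)]
      rw [e]
      have h6 := abs_sub (2 + 2 * π * a * Real.cos (2 * π * x)) 2
      rw [add_sub_cancel_left] at h6
      have h7 : |(2:ℝ)| = 2 := abs_of_pos (by norm_num)
      rw [h7] at h6
      exact h6
    have hcos : |Real.cos (2 * π * x)| ≤ ε := by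
      rw [hε, le_div_iff₀ (by positivity)]
      have : 6 * |a| * |Real.cos (2 * π * x)| ≤ 2 * π * |a| * |Real.cos (2 * π * x)| := by
        have := mul_nonneg ha.le (abs_nonneg (Real.cos (2 * π * x)))
        nlinarith
      linarith
    rcases cos_low h2 h3.le with h6 | h6
    · left
      have h7 : |x - 1 / 4| ≤ ε / 4 := by linarith
      rw [abs_le] at h7
      exact ⟨by linarith [h7.1], by linarith [h7.2]⟩
    · right
      have h7 : |x - 3 / 4| ≤ ε / 4 := by linarith
      rw [abs_le] at h7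
      exact ⟨by linarith [h7.1], by linarith [h7.2]⟩
  refine (measure_mono hsub).trans ((measure_union_le _ _).trans (le_of_eq ?_))
  rw [Real.volume_Icc, Real.volume_Icc, ← ENNReal.ofReal_add (by linarith) (by linarith)]
  congr 1
  ring

/-- covering by rectangles -/
private lemma cover {a H : ℝ} (K : ℕ) (hK : 2 * π * |a| + 2 ≤ 2 ^ K) :
    Helper18.EP.zn a (H * |a|) ∩ (Ico (0 : ℝ) 1 ×ˢ Ico (0 : ℝ) 1) ⊆
      (lowSet a 1 ×ˢ Ico (0 : ℝ) 1) ∪
        ⋃ k ∈ Finset.range K, lowSet a (2 ^ (k + 1)) ×ˢ lowSet a (H * |a| / 2 ^ k) := by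
  rintro ⟨x, y⟩ ⟨h1, hx, hy⟩
  have h2 : |vv a x| * |vv a y| < H * |a| := h1
  by_cases h3 : |vv a x| ≤ 1
  · left
    exact ⟨⟨h3, hx⟩, hy⟩
  · right
    rw [not_le] at h3
    have hle : |vv a x| ≤ 2 ^ K := (vv_abs a x).trans hK
    -- the least exponent
    have hex : ∃ k : ℕ, |vv a x| ≤ 2 ^ k := ⟨K, hle⟩
    classical
    set k := Nat.find hex with hk
    have hk1 : |vv a x| ≤ 2 ^ k := Nat.find_spec hex
    have hkK : k ≤ K := Nat.find_min' hex hle
    have hk0 : k ≠ 0 := by
      intro h0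
      rw [h0, pow_zero] at hk1
      linarith
    obtain ⟨j, hj⟩ := Nat.exists_eq_succ_of_ne_zero hk0
    have hj1 : 2 ^ j < |vv a x| := by
      have := Nat.find_min hex (m := j) (by omega)
      rwa [not_le] at this
    rw [mem_iUnion₂]
    refine ⟨j, by rw [Finset.mem_range]; omega, ⟨?_, hx⟩, ⟨?_, hy⟩⟩
    · show |vv a x| ≤ 2 ^ (j + 1)
      rw [← Nat.succ_eq_add_one, ← hj]
      exact hk1
    · show |vv a y| ≤ H * |a| / 2 ^ j
      rw [le_div_iff₀ (by positivity)]
      have h5 := abs_nonneg (vv a y)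
      nlinarith

theorem vol_zn2 {H : ℝ} (hH : 0 ≤ H) : ∀ a : ℝ, 1000 ≤ |a| →
    volume (Helper18.EP.zn a (H * |a|) ∩ (Ico (0 : ℝ) 1 ×ˢ Ico (0 : ℝ) 1)) ≤
      ENNReal.ofReal ((H + 10) * (Real.log |a| / |a|)) := by
  intro a ha
  have ha0 : 0 < |a| := by linarith
  set l : ℝ := Real.log |a| with hl
  have hl6 : 6 ≤ l := by
    rw [hl, Real.le_log_iff_exp_le ha0]
    have h := Real.exp_one_lt_d9
    have h5 : Real.exp 6 = Real.exp 1 ^ 6 := by rw [← Real.exp_nat_mul]; norm_num
    rw [h5]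
    have : Real.exp 1 ^ 6 ≤ (2.7182818286 : ℝ) ^ 6 := pow_le_pow_left₀ (Real.exp_pos _).le h.le 6
    refine this.trans ?_
    norm_num
    linarith
  -- the number of rectangles
  set L : ℝ := 2 * π * |a| + 2 with hL
  have hL0 : 0 < L := by positivity
  have hL7 : L ≤ 7 * |a| := by
    have := Real.pi_lt_d4
    rw [hL]
    nlinarith
  set K : ℕ := ⌈Real.log L / Real.log 2⌉₊ with hK
  have hlog2 : 0.69 < Real.log 2 := by
    have := Real.log_two_gt_d9
    linarith
  have hlog2' : Real.log 2 < 0.7 := by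
    have := Real.log_two_lt_d9
    linarith
  have hlogL : Real.log L ≤ l + 2 := by
    have h3 : Real.log L ≤ Real.log (7 * |a|) := Real.log_le_log hL0 hL7
    rw [Real.log_mul (by norm_num) ha0.ne'] at h3
    have h4 : Real.log 7 ≤ 2 := by
      rw [Real.log_le_iff_le_exp (by norm_num)]
      have h := Real.exp_one_gt_d9
      have h5 : Real.exp 2 = Real.exp 1 ^ 2 := by rw [← Real.exp_nat_mul]; norm_num
      rw [h5]; nlinarith
    linarith
  have hL1 : 1 ≤ L := by
    rw [hL]
    have : 0 ≤ 2 * π * |a| := by positivity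
    linarith
  have hlogL0 : 0 ≤ Real.log L := Real.log_nonneg hL1
  have hK1 : Real.log L / Real.log 2 ≤ K := Nat.le_ceil _
  have hK2 : (K : ℝ) < Real.log L / Real.log 2 + 1 := Nat.ceil_lt_add_one (by positivity)
  have hKp : L ≤ 2 ^ K := by
    rw [div_le_iff₀ (by linarith)] at hK1
    calc L = Real.exp (Real.log L) := (Real.exp_log hL0).symm
      _ ≤ Real.exp (K * Real.log 2) := Real.exp_le_exp.2 hK1
      _ = 2 ^ K := by rw [Real.exp_nat_mul, Real.exp_log (by norm_num)]
  have hKl : (K : ℝ) ≤ 3 * l := by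
    have : Real.log L / Real.log 2 ≤ (l + 2) / 0.69 := by
      rw [div_le_div_iff₀ (by linarith) (by norm_num)]
      nlinarith
    have h2 : (l + 2) / 0.69 + 1 ≤ 3 * l := by
      rw [div_add_one (by norm_num), div_le_iff₀ (by norm_num)]
      linarith
    linarith
  have hKu : (2 : ℝ) ^ K ≤ 2 * L := by
    have h1 : (K : ℝ) * Real.log 2 ≤ Real.log L + Real.log 2 := by
      have : (K : ℝ) * Real.log 2 ≤ (Real.log L / Real.log 2 + 1) * Real.log 2 :=
        mul_le_mul_of_nonneg_right hK2.le (by linarith)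
      rw [add_mul, div_mul_cancel₀ _ (by linarith), one_mul] at this
      exact this
    calc (2 : ℝ) ^ K = Real.exp (K * Real.log 2) := by rw [Real.exp_nat_mul, Real.exp_log (by norm_num)]
      _ ≤ Real.exp (Real.log L + Real.log 2) := Real.exp_le_exp.2 h1
      _ = 2 * L := by rw [Real.exp_add, Real.exp_log hL0, Real.exp_log (by norm_num), mul_comm]
  have hvol : ∀ (s t : Set ℝ) (u v : ℝ), 0 ≤ u → volume s ≤ ENNReal.ofReal u → volume t ≤ ENNReal.ofReal v →
      volume (s ×ˢ t) ≤ ENNReal.ofReal (u * v) := by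
    intro s t u v hu hs ht
    rw [Measure.volume_eq_prod, Measure.prod_prod, ENNReal.ofReal_mul hu]
    exact mul_le_mul' hs ht
  have hI : volume (Ico (0 : ℝ) 1) ≤ ENNReal.ofReal 1 := by
    rw [Real.volume_Ico, sub_zero]
  have h1 := hvol (lowSet a 1) (Ico (0 : ℝ) 1) _ 1 (by positivity) (vol_lowSet (by norm_num) ha0) hI
  have h2 : ∀ k ∈ Finset.range K, volume (lowSet a (2 ^ (k + 1)) ×ˢ lowSet a (H * |a| / 2 ^ k)) ≤
      ENNReal.ofReal (H / (9 * |a|) + 2 / (9 * |a| ^ 2) * 2 ^ k) := by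
    intro k _
    have h3 := hvol (lowSet a (2 ^ (k + 1))) (lowSet a (H * |a| / 2 ^ k)) _ _ (by positivity)
      (vol_lowSet (by positivity) ha0) (vol_lowSet (by positivity) ha0)
    refine h3.trans (ENNReal.ofReal_le_ofReal ?_)
    have hp : (1 : ℝ) ≤ 2 ^ k := one_le_pow₀ (by norm_num)
    have h4 : ((2 : ℝ) ^ (k + 1) + 2) / (6 * |a|) ≤ 4 * 2 ^ k / (6 * |a|) := by
      refine div_le_div_of_nonneg_right ?_ (by positivity)
      rw [pow_succ]
      linarith
    refine (mul_le_mul_of_nonneg_right h4 (by positivity)).trans (le_of_eq ?_)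
    field_simp
    ring
  refine (measure_mono (cover K hKp)).trans ((measure_union_le _ _).trans ?_)
  refine (add_le_add h1 ((measure_biUnion_finset_le _ _).trans (Finset.sum_le_sum h2))).trans ?_
  rw [← ENNReal.ofReal_sum_of_nonneg (fun k _ => by positivity),
    ← ENNReal.ofReal_add (by positivity) (Finset.sum_nonneg fun k _ => by positivity)]
  refine ENNReal.ofReal_le_ofReal ?_
  rw [Finset.sum_add_distrib, Finset.sum_const, Finset.card_range, nsmul_eq_mul, ← Finset.mul_sum]
  have hgeo : ∑ k ∈ Finset.range K, (2 : ℝ) ^ k ≤ 2 ^ K := by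
    have h := geom_sum_eq (x := (2:ℝ)) (by norm_num) K
    rw [h]
    have : (2:ℝ) - 1 = 1 := by norm_num
    rw [this, div_one]
    linarith
  have e1 : (1 + 2) / (6 * |a|) * 1 ≤ 1 * (l / |a|) := by
    rw [mul_one, one_mul, div_le_div_iff₀ (by positivity) ha0]
    nlinarith
  have e2 : (K : ℝ) * (H / (9 * |a|)) ≤ H * (l / |a|) := by
    have : (K : ℝ) * (H / (9 * |a|)) ≤ 3 * l * (H / (9 * |a|)) :=
      mul_le_mul_of_nonneg_right hKl (by positivity)
    refine this.trans ?_
    have e : 3 * l * (H / (9 * |a|)) = (1 / 3) * (H * (l / |a|)) := by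
      field_simp
      ring
    rw [e]
    have : 0 ≤ H * (l / |a|) := by positivity
    linarith
  have e3 : 2 / (9 * |a| ^ 2) * ∑ k ∈ Finset.range K, (2 : ℝ) ^ k ≤ 4 * (l / |a|) := by
    have h5 : ∑ k ∈ Finset.range K, (2 : ℝ) ^ k ≤ 14 * |a| := hgeo.trans (by linarith)
    have h6 : 2 / (9 * |a| ^ 2) * ∑ k ∈ Finset.range K, (2 : ℝ) ^ k ≤ 2 / (9 * |a| ^ 2) * (14 * |a|) :=
      mul_le_mul_of_nonneg_left h5 (by positivity)
    refine h6.trans ?_
    have e : 2 / (9 * |a| ^ 2) * (14 * |a|) = (28 / 9) / |a| := by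
      field_simp
      norm_num
    have e' : 4 * (l / |a|) = (4 * l) / |a| := by ring
    rw [e, e']
    refine div_le_div_of_nonneg_right ?_ ha0.le
    linarith
  have e4 : 0 ≤ l / |a| := by positivity
  have e5 : (H + 10) * (l / |a|) = H * (l / |a|) + 10 * (l / |a|) := by ring
  rw [e5]
  linarith

end Pool.Agent.Helper46.EN
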