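import Pool.Agent.Helper95.EN.Count

/-! Hurwitz' theorem (project EN, MP_9ee088_an), via Jensen's formula on two circles: for an entire function `F` without zero
in the closed annulus `r₁ ≤ ‖z - c‖ ≤ r₂`, the difference of the circle averages of `log ‖F‖` is
`(number of zeros in the disc) * log (r₂ / r₁)`. -/

set_option autoImplicit false
open Set Metric Filter Topology Real MeromorphicOn

namespace Pool.Agent.Helper46.EN

open Helper95.EN

open scoped Classical in
/-- the divisor of an entire function -/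
lemma div_apply {F : ℂ → ℂ} (hF : Differentiable ℂ F) (hne : ∃ z, F z ≠ 0) (c : ℂ) (R : ℝ) (u : ℂ) :
    MeromorphicOn.divisor F (closedBall c R) u =
      if u ∈ closedBall c R then (analyticOrderNatAt F u : ℤ) else 0 := by
  have hA : AnalyticOnNhd ℂ F (closedBall c R) := fun z _ => hF.analyticAt z
  split_ifs with h
  · rw [MeromorphicOn.AnalyticOnNhd.divisor_apply hA h]
    have h1 := Nat.cast_analyticOrderNatAt (ord_ne_top hF hne u)
    rw [← h1]
    simp
  · simp [h]

/-- difference of two circle averages -/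
lemma avg_diff {F : ℂ → ℂ} (hF : Differentiable ℂ F) (hne : ∃ z, F z ≠ 0) (c : ℂ) {r₁ r₂ : ℝ}
    (h1 : 0 < r₁) (h12 : r₁ < r₂) (hz : ∀ z, r₁ ≤ ‖z - c‖ → ‖z - c‖ ≤ r₂ → F z ≠ 0) :
    circleAverage (fun z => Real.log ‖F z‖) c r₂ - circleAverage (fun z => Real.log ‖F z‖) c r₁ =
      cnt F (ball c r₂) * (Real.log r₂ - Real.log r₁) := by
  have h2 : 0 < r₂ := h1.trans h12
  have hM : ∀ R : ℝ, MeromorphicOn F (closedBall c |R|) := fun R z _ =>
    (hF.analyticAt z).meromorphicAt
  have key : ∀ R : ℝ, 0 < R → circleAverage (fun z => Real.log ‖F z‖) c R =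
      ∑ᶠ u, ((MeromorphicOn.divisor F (closedBall c R) u : ℤ) : ℝ) * (Real.log R - Real.log ‖c - u‖) +
        Real.log ‖meromorphicTrailingCoeffAt F c‖ := by
    intro R hR
    have e := (hM R).circleAverage_log_norm hR.ne'
    rw [abs_of_pos hR] at e
    have hfin := (MeromorphicOn.divisor F (closedBall c R)).finiteSupport (isCompact_closedBall c R)
    rw [countingFunction_finsum_eq_finsum_add hR.ne' hfin, e]
  have heq : ∀ u, MeromorphicOn.divisor F (closedBall c r₁) u = MeromorphicOn.divisor F (closedBall c r₂) u := by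
    intro u
    rw [div_apply hF hne, div_apply hF hne]
    by_cases hu1 : u ∈ closedBall c r₁
    · have hu2 : u ∈ closedBall c r₂ := closedBall_subset_closedBall h12.le hu1
      rw [if_pos hu1, if_pos hu2]
    · rw [if_neg hu1]
      by_cases hu2 : u ∈ closedBall c r₂
      · rw [if_pos hu2]
        rw [mem_closedBall, dist_eq_norm, not_le] at hu1
        rw [mem_closedBall, dist_eq_norm] at hu2
        have h3 := hz u hu1.le hu2
        have h4 : analyticOrderNatAt F u = 0 := by
          by_contra h5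
          exact h3 (ord_ne_zero_zero h5)
        rw [h4]
        rfl
      · rw [if_neg hu2]
  have hfin := (MeromorphicOn.divisor F (closedBall c r₂)).finiteSupport (isCompact_closedBall c r₂)
  have hfin' : (Function.support fun u => MeromorphicOn.divisor F (closedBall c r₂) u).Finite := hfin
  set T : Finset ℂ := hfin'.toFinset with hT
  have hsum : ∀ φ : ℂ → ℝ, ∑ᶠ u, ((MeromorphicOn.divisor F (closedBall c r₂) u : ℤ) : ℝ) * φ u =
      ∑ u ∈ T, ((MeromorphicOn.divisor F (closedBall c r₂) u : ℤ) : ℝ) * φ u := by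
    intro φ
    apply finsum_eq_sum_of_support_subset
    intro u hu
    rw [Function.mem_support] at hu
    have h6 : MeromorphicOn.divisor F (closedBall c r₂) u ≠ 0 := by
      intro h7
      apply hu
      rw [h7]
      simp
    rw [hT]
    simpa using h6
  have hcnt : (cnt F (ball c r₂) : ℝ) = ∑ u ∈ T, ((MeromorphicOn.divisor F (closedBall c r₂) u : ℤ) : ℝ) := by
    rw [cnt_eq (T := T)]
    · push_cast
      refine Finset.sum_congr rfl fun u hu => ?_
      have h6 : MeromorphicOn.divisor F (closedBall c r₂) u ≠ 0 := by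
        rw [hT] at hu
        simpa using hu
      rw [div_apply hF hne] at h6 ⊢
      split_ifs at h6 ⊢ with h7
      · simp
      · exact absurd rfl h6
    · intro u hu
      have h6 : MeromorphicOn.divisor F (closedBall c r₂) u ≠ 0 := by
        rw [hT] at hu
        simpa using hu
      rw [div_apply hF hne] at h6
      split_ifs at h6 with h7
      · have h8 : F u = 0 := ord_ne_zero_zero (by exact_mod_cast h6)
        rw [mem_closedBall, dist_eq_norm] at h7
        rw [mem_ball, dist_eq_norm]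
        by_contra h9
        rw [not_lt] at h9
        exact hz u (h12.le.trans h9) h7 h8
      · exact absurd rfl h6
    · intro u hu h0
      have h6 : MeromorphicOn.divisor F (closedBall c r₂) u ≠ 0 := by
        rw [div_apply hF hne, if_pos (ball_subset_closedBall hu)]
        have := ord_pos hF hne h0
        exact_mod_cast (by omega : analyticOrderNatAt F u ≠ 0)
      rw [hT]
      simpa using h6
  rw [key r₂ h2, key r₁ h1]
  simp_rw [heq]
  rw [hsum, hsum, hcnt, Finset.sum_mul, add_sub_add_right_eq_sub, ← Finset.sum_sub_distrib]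
  refine Finset.sum_congr rfl fun u _ => ?_
  ring

/-- an entire function without zero on a circle has none on a slightly thicker inner annulus -/
lemma annulus {F : ℂ → ℂ} (hF : Differentiable ℂ F) (hne : ∃ z, F z ≠ 0) (c : ℂ) {r : ℝ} (hr : 0 < r)
    (hz : ∀ z ∈ sphere c r, F z ≠ 0) :
    ∃ r₁, 0 < r₁ ∧ r₁ < r ∧ ∀ z, r₁ ≤ ‖z - c‖ → ‖z - c‖ ≤ r → F z ≠ 0 := by
  have hfin := finite_zeros hF hne (isCompact_closedBall c r)
  set T := hfin.toFinset with hT
  have hlt : ∀ z ∈ T, ‖z - c‖ < r := by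
    intro z hzT
    rw [hT, Set.Finite.mem_toFinset] at hzT
    have h1 : ‖z - c‖ ≤ r := by
      have := hzT.1
      rwa [mem_closedBall, dist_eq_norm] at this
    refine lt_of_le_of_ne h1 fun h2 => ?_
    exact hz z (by rw [mem_sphere, dist_eq_norm]; exact h2) hzT.2
  have hex : ∃ r₀, r₀ < r ∧ ∀ z ∈ T, ‖z - c‖ ≤ r₀ := by
    by_cases hTe : T.Nonempty
    · refine ⟨T.sup' hTe fun z => ‖z - c‖, ?_, fun z hzT => Finset.le_sup' (fun z => ‖z - c‖) hzT⟩
      rw [Finset.sup'_lt_iff]
      exact hlt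
    · refine ⟨0, hr, fun z hzT => absurd ⟨z, hzT⟩ hTe⟩
  obtain ⟨r₀, hr₀, h⟩ := hex
  refine ⟨(max r₀ 0 + r) / 2, ?_, ?_, ?_⟩
  · have := le_max_right r₀ 0
    linarith
  · have : max r₀ 0 < r := max_lt hr₀ hr
    linarith
  · intro z h1 h2 h0
    have hzT : z ∈ T := by
      rw [hT, Set.Finite.mem_toFinset]
      refine ⟨?_, h0⟩
      rw [mem_closedBall, dist_eq_norm]
      exact h2
    have h3 := h z hzT
    have h4 := le_max_left r₀ 0
    have : max r₀ 0 < r := max_lt hr₀ hr
    linarith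

/-- **Hurwitz**: stability of the number of zeros in a disc -/
theorem hurwitz_disc {F : ℂ → ℂ} (hF : Differentiable ℂ F) (z0 : ℂ) {r : ℝ} (hr : 0 < r)
    (hz : ∀ z ∈ sphere z0 r, F z ≠ 0) :
    ∃ δ > 0, ∀ G : ℂ → ℂ, Differentiable ℂ G → (∀ z ∈ closedBall z0 r, ‖G z - F z‖ < δ) →
      cnt G (ball z0 r) = cnt F (ball z0 r) ∧ ∀ z ∈ sphere z0 r, G z ≠ 0 := by
  have hp : z0 + r ∈ sphere z0 r := by
    rw [mem_sphere, dist_eq_norm]
    simp [abs_of_pos hr]
  have hne : ∃ z, F z ≠ 0 := ⟨_, hz _ hp⟩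
  obtain ⟨r₁, h1, h12, hA⟩ := annulus hF hne z0 hr hz
  -- lower bound on the annulus
  set K : Set ℂ := {z | r₁ ≤ ‖z - z0‖ ∧ ‖z - z0‖ ≤ r} with hK
  have hKc : IsCompact K := by
    refine (isCompact_closedBall z0 r).of_isClosed_subset ?_ ?_
    · have hc : Continuous fun z : ℂ => ‖z - z0‖ := by fun_prop
      exact (isClosed_le continuous_const hc).inter (isClosed_le hc continuous_const)
    · rintro z ⟨-, h⟩
      rw [mem_closedBall, dist_eq_norm]
      exact h
  have hKne : K.Nonempty := ⟨z0 + r, by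
    rw [mem_sphere, dist_eq_norm] at hp
    exact ⟨by rw [hp]; exact h12.le, hp.le⟩⟩
  obtain ⟨x, hxK, hx⟩ := hKc.exists_isMinOn hKne (hF.continuous.norm.continuousOn)
  set m : ℝ := ‖F x‖ with hm
  have hm0 : 0 < m := norm_pos_iff.2 (hA x hxK.1 hxK.2)
  have hmin : ∀ z ∈ K, m ≤ ‖F z‖ := fun z hz => hx hz
  set l : ℝ := Real.log r - Real.log r₁ with hl
  have hl0 : 0 < l := sub_pos.2 (Real.log_lt_log h1 h12)
  set δ : ℝ := min (m / 2) (m * l / 8) with hδ
  have hδ0 : 0 < δ := lt_min (by positivity) (by positivity)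
  refine ⟨δ, hδ0, fun G hG hGF => ?_⟩
  have hd1 : δ ≤ m / 2 := min_le_left _ _
  have hd2 : δ ≤ m * l / 8 := min_le_right _ _
  have hGK : ∀ z ∈ K, m / 2 ≤ ‖G z‖ := by
    intro z hzK
    have h3 := hGF z (by rw [mem_closedBall, dist_eq_norm]; exact hzK.2)
    have h4 : ‖F z‖ ≤ ‖G z‖ + ‖G z - F z‖ := by
      have := norm_sub_le (G z) (G z - F z)
      rwa [sub_sub_cancel] at this
    linarith [hmin z hzK]
  have hGA : ∀ z, r₁ ≤ ‖z - z0‖ → ‖z - z0‖ ≤ r → G z ≠ 0 := by
    intro z h3 h4 h5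
    have := hGK z ⟨h3, h4⟩
    rw [h5, norm_zero] at this
    linarith
  have hGne : ∃ z, G z ≠ 0 := ⟨x, hGA x hxK.1 hxK.2⟩
  refine ⟨?_, ?_⟩
  swap
  · intro z hzs
    rw [mem_sphere, dist_eq_norm] at hzs
    exact hGA z (by rw [hzs]; exact h12.le) hzs.le
  have e1 := avg_diff hF hne z0 h1 h12 hA
  have e2 := avg_diff hG hGne z0 h1 h12 hGA
  -- the averages are close
  have hlog : ∀ z ∈ K, |Real.log ‖G z‖ - Real.log ‖F z‖| ≤ 2 * δ / m := by
    intro z hzK
    have h3 := hGF z (by rw [mem_closedBall, dist_eq_norm]; exact hzK.2)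
    have hF0 : 0 < ‖F z‖ := hm0.trans_le (hmin z hzK)
    have hG0 : 0 < ‖G z‖ := lt_of_lt_of_le (by positivity) (hGK z hzK)
    have h5 : |‖G z‖ - ‖F z‖| ≤ δ := (abs_norm_sub_norm_le _ _).trans h3.le
    have h6 := abs_le.1 h5
    rw [← Real.log_div hG0.ne' hF0.ne']
    have h7 : Real.log (‖G z‖ / ‖F z‖) ≤ ‖G z‖ / ‖F z‖ - 1 := Real.log_le_sub_one_of_pos (by positivity)
    have h8 : Real.log (‖F z‖ / ‖G z‖) ≤ ‖F z‖ / ‖G z‖ - 1 := Real.log_le_sub_one_of_pos (by positivity)
    have h9 : Real.log (‖F z‖ / ‖G z‖) = - Real.log (‖G z‖ / ‖F z‖) := by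
      rw [← Real.log_inv, inv_div]
    rw [abs_le]
    constructor
    · have : ‖F z‖ / ‖G z‖ - 1 ≤ 2 * δ / m := by
        rw [div_sub_one hG0.ne', div_le_div_iff₀ hG0 hm0]
        nlinarith [hGK z hzK]
      linarith
    · have : ‖G z‖ / ‖F z‖ - 1 ≤ 2 * δ / m := by
        rw [div_sub_one hF0.ne', div_le_div_iff₀ hF0 hm0]
        nlinarith [hmin z hzK]
      linarith
  have havg : ∀ R : ℝ, r₁ ≤ R → R ≤ r →
      |circleAverage (fun z => Real.log ‖G z‖) z0 R - circleAverage (fun z => Real.log ‖F z‖) z0 R| ≤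
        2 * δ / m := by
    intro R hR1 hR2
    have hR0 : 0 < R := h1.trans_le hR1
    have i1 : CircleIntegrable (fun z => Real.log ‖G z‖) z0 R :=
      MeromorphicOn.circleIntegrable_log_norm fun z _ => (hG.analyticAt z).meromorphicAt
    have i2 : CircleIntegrable (fun z => Real.log ‖F z‖) z0 R :=
      MeromorphicOn.circleIntegrable_log_norm fun z _ => (hF.analyticAt z).meromorphicAt
    have hsub := circleAverage_sub i1 i2
    have e3 : circleAverage (fun z => Real.log ‖G z‖) z0 R - circleAverage (fun z => Real.log ‖F z‖) z0 R =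
        circleAverage ((fun z => Real.log ‖G z‖) - fun z => Real.log ‖F z‖) z0 R := hsub.symm
    rw [e3]
    refine abs_circleAverage_le_circleAverage_abs.trans ?_
    refine circleAverage_mono_on_of_le_circle (i1.sub i2).abs ?_
    intro z hzs
    rw [abs_of_pos hR0, mem_sphere, dist_eq_norm] at hzs
    exact hlog z ⟨by rw [hzs]; exact hR1, by rw [hzs]; exact hR2⟩
  have a1 := abs_le.1 (havg r h12.le le_rfl)
  have a2 := abs_le.1 (havg r₁ le_rfl h12.le)
  have a3 : 2 * δ / m ≤ l / 4 := by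
    rw [div_le_div_iff₀ hm0 (by norm_num)]
    linarith
  rw [← hl] at e1 e2
  set N : ℕ := cnt G (ball z0 r) with hN
  set N' : ℕ := cnt F (ball z0 r) with hN'
  have h3 : |((N : ℝ) - N') * l| ≤ l / 2 := by
    rw [abs_le]
    constructor <;> linarith [sub_mul (N : ℝ) N' l]
  have h4 : |(N : ℝ) - N'| < 1 := by
    rw [abs_mul, abs_of_pos hl0] at h3
    by_contra h5
    rw [not_lt] at h5
    nlinarith
  have h5 : |((N : ℤ) - N' : ℤ)| < 1 := by
    have : ((|((N : ℤ) - N' : ℤ)| : ℤ) : ℝ) < 1 := by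
      push_cast
      exact h4
    exact_mod_cast this
  have h6 := Int.abs_lt_one_iff.1 h5
  omega

end Pool.Agent.Helper46.EN
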