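import Pool.Agent.Helper18.UY.Good

/-! Density clause (MP_9ee088_an), plane part: every long flat curve has a point which is mapped, modulo integer
translations and after a number of steps which depends on the target only, to a given vertical segment of length `2 / |a|`. -/

set_option autoImplicit false
open MeasureTheory Real Set

namespace Pool.Agent.Helper46.EN

open Pool.Agent.Helper18.UC Pool.Agent.Helper18.UY

/-- the function `2 v + a sin (2 π v)` -/
noncomputable def qf (a v : ℝ) : ℝ := 2 * v + a * Real.sin (2 * π * v)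

lemma qf_cont (a : ℝ) : Continuous (qf a) := by
  unfold qf
  fun_prop

/-- on every interval of length `e ≤ 1 / 2` the function `qf a` oscillates by at least `2 |a| e² - e` -/
theorem qf_osc (a : ℝ) {u e : ℝ} (he : 0 ≤ e) (he2 : e ≤ 1 / 2) :
    ∃ x ∈ Icc u (u + e), ∃ y ∈ Icc u (u + e), 2 * |a| * e ^ 2 - e ≤ |qf a x - qf a y| := by
  have hpi := Real.pi_pos
  obtain ⟨d, hd⟩ : ∃ d : ℝ, e = 2 * d := ⟨e / 2, by ring⟩
  have hd0 : 0 ≤ d := by linarith
  have hd1 : d ≤ 1 / 4 := by linarith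
  have s1 : 2 * d ≤ Real.sin (π * d) := by
    have h := Real.mul_le_sin (x := π * d) (by positivity) (by nlinarith)
    refine le_trans (le_of_eq ?_) h
    field_simp
  have s2 : 4 * d ≤ Real.sin (2 * π * d) := by
    have h := Real.mul_le_sin (x := 2 * π * d) (by positivity) (by nlinarith)
    refine le_trans (le_of_eq ?_) h
    field_simp
    ring
  -- the difference at two points at distance `d`
  have hdiff : ∀ m : ℝ, qf a (m + d / 2) - qf a (m - d / 2) =
      2 * d + 2 * a * (Real.sin (π * d) * Real.cos (2 * π * m)) := by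
    intro m
    unfold qf
    have e1 : 2 * π * (m + d / 2) = 2 * π * m + π * d := by ring
    have e2 : 2 * π * (m - d / 2) = 2 * π * m - π * d := by ring
    rw [e1, e2, Real.sin_add, Real.sin_sub]
    ring
  have key : ∀ m : ℝ, 2 * d ≤ |Real.cos (2 * π * m)| →
      2 * |a| * e ^ 2 - e ≤ |qf a (m + d / 2) - qf a (m - d / 2)| := by
    intro m hm
    rw [hdiff m]
    have h1 : |2 * a * (Real.sin (π * d) * Real.cos (2 * π * m))| =
        2 * |a| * (Real.sin (π * d) * |Real.cos (2 * π * m)|) := by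
      rw [abs_mul, abs_mul, abs_mul, abs_of_pos (by norm_num : (0:ℝ) < 2),
        abs_of_nonneg (by linarith : 0 ≤ Real.sin (π * d))]
    have h2 : 2 * d * (2 * d) ≤ Real.sin (π * d) * |Real.cos (2 * π * m)| :=
      mul_le_mul s1 hm (by linarith) (by linarith)
    have h3 : 2 * |a| * (2 * d * (2 * d)) ≤
        2 * |a| * (Real.sin (π * d) * |Real.cos (2 * π * m)|) :=
      mul_le_mul_of_nonneg_left h2 (by positivity)
    have h4 := abs_sub_abs_le_abs_sub (2 * a * (Real.sin (π * d) * Real.cos (2 * π * m))) (-(2 * d))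
    rw [h1, abs_neg, abs_of_nonneg (by linarith : 0 ≤ 2 * d), sub_neg_eq_add] at h4
    have h5 : 2 * a * (Real.sin (π * d) * Real.cos (2 * π * m)) + 2 * d =
      2 * d + 2 * a * (Real.sin (π * d) * Real.cos (2 * π * m)) := by ring
    rw [h5] at h4
    have h6 : 2 * |a| * e ^ 2 - e = 2 * |a| * (2 * d * (2 * d)) - 2 * d := by
      rw [hd]; ring
    rw [h6]
    linarith
  have hsum : Real.sin (2 * π * d) ≤
      |Real.cos (2 * π * (u + d / 2))| + |Real.cos (2 * π * (u + 3 * d / 2))| := by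
    have e1 : 2 * π * d = 2 * π * (u + 3 * d / 2) - 2 * π * (u + d / 2) := by ring
    rw [e1, Real.sin_sub]
    have h1 : Real.sin (2 * π * (u + 3 * d / 2)) * Real.cos (2 * π * (u + d / 2)) ≤
        |Real.cos (2 * π * (u + d / 2))| := by
      refine (le_abs_self _).trans ?_
      rw [abs_mul]
      have := Real.abs_sin_le_one (2 * π * (u + 3 * d / 2))
      have h0 := abs_nonneg (Real.cos (2 * π * (u + d / 2)))
      nlinarith
    have h2 : -(Real.cos (2 * π * (u + 3 * d / 2)) * Real.sin (2 * π * (u + d / 2))) ≤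
        |Real.cos (2 * π * (u + 3 * d / 2))| := by
      refine (neg_le_abs _).trans ?_
      rw [abs_mul]
      have := Real.abs_sin_le_one (2 * π * (u + d / 2))
      have h0 := abs_nonneg (Real.cos (2 * π * (u + 3 * d / 2)))
      nlinarith
    linarith
  rcases le_total (2 * d) |Real.cos (2 * π * (u + d / 2))| with h | h
  · refine ⟨u + d / 2 + d / 2, ⟨by linarith, by linarith⟩, u + d / 2 - d / 2,
      ⟨by linarith, by linarith⟩, key _ h⟩
  · refine ⟨u + 3 * d / 2 + d / 2, ⟨by linarith, by linarith⟩, u + 3 * d / 2 - d / 2,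
      ⟨by linarith, by linarith⟩, key _ (by linarith)⟩

/-- backward orbit of the points of the vertical line through `x0` -/
noncomputable def gs (a x0 : ℝ) : ℕ → ℝ → ℝ
  | 0, _ => x0
  | 1, u => u
  | k + 2, u => qf a (gs a x0 (k + 1) u) - gs a x0 k u

lemma gs_zero (a x0 u : ℝ) : gs a x0 0 u = x0 := by rw [gs]

lemma gs_one (a x0 u : ℝ) : gs a x0 1 u = u := by rw [gs]

lemma gs_succ (a x0 : ℝ) (k : ℕ) (u : ℝ) :
    gs a x0 (k + 2) u = qf a (gs a x0 (k + 1) u) - gs a x0 k u := by rw [gs]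

lemma gs_cont (a x0 : ℝ) (k : ℕ) : Continuous (gs a x0 k) := by
  suffices h : Continuous (gs a x0 k) ∧ Continuous (gs a x0 (k + 1)) from h.1
  induction k with
  | zero =>
    refine ⟨?_, ?_⟩
    · have e : gs a x0 0 = fun _ => x0 := funext fun u => gs_zero a x0 u
      rw [e]
      exact continuous_const
    · have e : gs a x0 (0 + 1) = fun u => u := funext fun u => gs_one a x0 u
      rw [e]
      exact continuous_id
  | succ k ih =>
    refine ⟨ih.2, ?_⟩
    have e : gs a x0 (k + 1 + 1) = fun u => qf a (gs a x0 (k + 1) u) - gs a x0 k u :=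
      funext fun u => gs_succ a x0 k u
    rw [e]
    exact ((qf_cont a).comp ih.2).sub ih.1

theorem F_gs (a x0 : ℝ) (k : ℕ) (u : ℝ) :
    (F a)^[k] (gs a x0 k u, gs a x0 (k + 1) u) = (x0, u) := by
  induction k with
  | zero => simp [gs_zero, gs_one]
  | succ k ih =>
    rw [Function.iterate_succ_apply]
    have e : F a (gs a x0 (k + 1) u, gs a x0 (k + 1 + 1) u) = (gs a x0 k u, gs a x0 (k + 1) u) := by
      unfold F
      refine Prod.ext ?_ rfl
      simp only
      rw [gs_succ]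
      unfold qf
      ring
    rw [e, ih]

/-- a continuous function on an interval has a pair of points with the greatest difference -/
private lemma exists_pair {f : ℝ → ℝ} (hf : Continuous f) {r0 r1 : ℝ} (hr : r0 ≤ r1) :
    ∃ p ∈ Icc r0 r1, ∃ q ∈ Icc r0 r1, ∀ u ∈ Icc r0 r1, ∀ v ∈ Icc r0 r1, f u - f v ≤ f p - f q := by
  obtain ⟨p, hp, hp1⟩ := isCompact_Icc.exists_isMaxOn (nonempty_Icc.2 hr) hf.continuousOn
  obtain ⟨q, hq, hq1⟩ := isCompact_Icc.exists_isMinOn (nonempty_Icc.2 hr) hf.continuousOn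
  refine ⟨p, hp, q, hq, fun u hu v hv => ?_⟩
  have h1 := hp1 hu
  have h2 := hq1 hv
  simp only [mem_ofPred_eq] at h1 h2
  linarith

/-- the first time at which the backward images of a vertical segment of length `2 / |a|` have vertical extent at least `2` -/
theorem exists_first {a : ℝ} (ha : 10 ≤ |a|) (x0 y0 : ℝ) {K : ℕ} (hK : |a| ≤ 2 ^ K) :
    ∃ k ≤ K, (∃ u ∈ Icc (y0 - 1 / |a|) (y0 + 1 / |a|), ∃ v ∈ Icc (y0 - 1 / |a|) (y0 + 1 / |a|),
        2 ≤ |gs a x0 (k + 1) u - gs a x0 (k + 1) v|) ∧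
      ∀ u ∈ Icc (y0 - 1 / |a|) (y0 + 1 / |a|), ∀ v ∈ Icc (y0 - 1 / |a|) (y0 + 1 / |a|),
        |gs a x0 k u - gs a x0 k v| < 2 := by
  classical
  have ha0 : 0 < |a| := by linarith
  have hr0 : 0 < 1 / |a| := by positivity
  obtain ⟨I, hI⟩ : ∃ I : Set ℝ, I = Icc (y0 - 1 / |a|) (y0 + 1 / |a|) := ⟨_, rfl⟩
  rw [← hI]
  -- maximal differences
  have hex : ∀ j : ℕ, ∃ p ∈ I, ∃ q ∈ I, ∀ u ∈ I, ∀ v ∈ I,
      gs a x0 j u - gs a x0 j v ≤ gs a x0 j p - gs a x0 j q := by
    intro j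
    rw [hI]
    exact exists_pair (gs_cont a x0 j) (by linarith)
  choose p hp q hq hpq using hex
  obtain ⟨e, he⟩ : ∃ e : ℕ → ℝ, ∀ j, e j = gs a x0 j (p j) - gs a x0 j (q j) := ⟨_, fun _ => rfl⟩
  have hosc : ∀ j, ∀ u ∈ I, ∀ v ∈ I, |gs a x0 j u - gs a x0 j v| ≤ e j := by
    intro j u hu v hv
    rw [he, abs_le]
    have h1 := hpq j u hu v hv
    have h2 := hpq j v hv u hu
    constructor <;> linarith
  have he0 : ∀ j, 0 ≤ e j := fun j => (abs_nonneg _).trans (hosc j _ (hp j) _ (hp j))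
  -- every value between is attained
  have hIc : IsPreconnected I := by rw [hI]; exact isPreconnected_Icc
  have hval : ∀ j, ∀ x ∈ Icc (gs a x0 j (q j)) (gs a x0 j (q j) + e j), ∃ u ∈ I, gs a x0 j u = x := by
    intro j x hx
    have h1 : x ∈ Icc (gs a x0 j (q j)) (gs a x0 j (p j)) := ⟨hx.1, by linarith [hx.2, he j]⟩
    obtain ⟨u, hu, hux⟩ := hIc.intermediate_value (hq j) (hp j) (gs_cont a x0 j).continuousOn h1
    exact ⟨u, hu, hux⟩
  have hrec : ∀ j : ℕ, ∀ l : ℝ, 0 ≤ l → l ≤ 1 / 2 → l ≤ e (j + 1) →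
      2 * |a| * l ^ 2 - l ≤ e (j + 2) + e j := by
    intro j l hl0 hl1 hl
    obtain ⟨x, hx, y, hy, hxy⟩ := qf_osc a (u := gs a x0 (j + 1) (q (j + 1))) hl0 hl1
    obtain ⟨u, hu, hux⟩ := hval (j + 1) x ⟨hx.1, by linarith [hx.2]⟩
    obtain ⟨v, hv, hvy⟩ := hval (j + 1) y ⟨hy.1, by linarith [hy.2]⟩
    have h1 := hosc (j + 2) u hu v hv
    have h2 := hosc j u hu v hv
    rw [gs_succ, gs_succ, hux, hvy] at h1
    have h3 : qf a x - qf a y = (qf a x - gs a x0 j u - (qf a y - gs a x0 j v)) +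
      (gs a x0 j u - gs a x0 j v) := by ring
    have h4 := abs_add_le (qf a x - gs a x0 j u - (qf a y - gs a x0 j v))
      (gs a x0 j u - gs a x0 j v)
    rw [← h3] at h4
    linarith
  -- some time is big
  have hbig : ∃ j, j ≤ K + 1 ∧ 2 ≤ e j := by
    by_contra hcon
    push Not at hcon
    have hstep : ∀ j ≤ K, e j ≤ e (j + 1) ∧ 2 ^ (j + 1) ≤ |a| * e (j + 1) := by
      intro j
      induction j with
      | zero =>
        intro _
        have h0 : e 0 = 0 := by rw [he, gs_zero, gs_zero, sub_self]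
        have h1 : 2 / |a| ≤ e 1 := by
          have h2 := hosc 1 (y0 + 1 / |a|) (by rw [hI]; exact ⟨by linarith, le_rfl⟩)
            (y0 - 1 / |a|) (by rw [hI]; exact ⟨le_rfl, by linarith⟩)
          rw [gs_one, gs_one] at h2
          have e1 : y0 + 1 / |a| - (y0 - 1 / |a|) = 2 / |a| := by ring
          have e2 : 0 < 2 / |a| := by positivity
          rw [e1, abs_of_pos e2] at h2
          exact h2
        refine ⟨by rw [h0]; exact he0 _, ?_⟩
        rw [div_le_iff₀ ha0] at h1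
        rw [zero_add, pow_one, mul_comm]
        exact h1
      | succ j ih =>
        intro hj
        obtain ⟨ih1, ih2⟩ := ih (by omega)
        have hn0 := hcon j (by omega)
        have hn1 := hcon (j + 1) (by omega)
        have hn2 := hcon (j + 1 + 1) (by omega)
        have hsmall : e (j + 1) ≤ 1 / 2 := by
          by_contra hc
          rw [not_le] at hc
          have h1 := hrec j (1 / 2) (by norm_num) le_rfl hc.le
          have h2 : e (j + 2) < 2 := hn2
          nlinarith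
        have h1 := hrec j (e (j + 1)) (he0 _) hsmall le_rfl
        have h2 : (2:ℝ) ≤ 2 ^ (j + 1) := by
          calc (2:ℝ) = 2 ^ 1 := (pow_one 2).symm
            _ ≤ 2 ^ (j + 1) := pow_le_pow_right₀ (by norm_num) (by omega)
        have h3 : 2 ≤ |a| * e (j + 1) := h2.trans ih2
        have h4 := he0 (j + 1)
        have h5 : 2 * e (j + 1) ≤ e (j + 2) := by nlinarith
        refine ⟨by show e (j + 1) ≤ e (j + 2); linarith, ?_⟩
        show 2 ^ (j + 2) ≤ |a| * e (j + 2)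
        calc (2:ℝ) ^ (j + 2) = 2 * 2 ^ (j + 1) := by ring
          _ ≤ 2 * (|a| * e (j + 1)) := by linarith
          _ = |a| * (2 * e (j + 1)) := by ring
          _ ≤ |a| * e (j + 2) := mul_le_mul_of_nonneg_left h5 ha0.le
    have h1 := (hstep K le_rfl).2
    have h2 := hcon (K + 1) le_rfl
    have h3 : |a| * e (K + 1) < |a| * 2 := mul_lt_mul_of_pos_left h2 ha0
    rw [pow_succ] at h1
    linarith
  have hj0 := Nat.find_spec hbig
  obtain ⟨j0, hj0d⟩ : ∃ j0, j0 = Nat.find hbig := ⟨_, rfl⟩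
  rw [← hj0d] at hj0
  have hne : j0 ≠ 0 := by
    intro h
    have h1 := hj0.2
    rw [h, he, gs_zero, gs_zero, sub_self] at h1
    linarith
  obtain ⟨k, hk⟩ := Nat.exists_eq_succ_of_ne_zero hne
  have hmin : e k < 2 := by
    have h1 := Nat.find_min hbig (m := k) (by rw [← hj0d]; omega)
    by_contra hc
    rw [not_lt] at hc
    exact h1 ⟨by omega, hc⟩
  refine ⟨k, by omega, ?_, fun u hu v hv => (hosc k u hu v hv).trans_lt hmin⟩
  refine ⟨p (k + 1), hp _, q (k + 1), hq _, ?_⟩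
  have h1 := hj0.2
  rw [hk, he] at h1
  exact h1.trans (le_abs_self _)

/-- a flat curve of horizontal extent at least `6` meets, modulo integer translations, every curve of horizontal extent less
than `2` and vertical extent at least `2` -/
theorem cross_flat {X Y G H : ℝ → ℝ} {s0 s1 r0 r1 : ℝ} (hs : s0 ≤ s1)
    (hX : ContinuousOn X (Icc s0 s1)) (h6 : 6 ≤ |X s1 - X s0|)
    (hsl : ∀ s ∈ Icc s0 s1, ∀ s' ∈ Icc s0 s1, |Y s - Y s'| ≤ (1 / 8) * |X s - X s'|)
    (hG : Continuous G) (hH : Continuous H)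
    (hG2 : ∀ u ∈ Icc r0 r1, ∀ v ∈ Icc r0 r1, |G u - G v| < 2)
    (hH2 : ∃ u ∈ Icc r0 r1, ∃ v ∈ Icc r0 r1, 2 ≤ |H u - H v|) :
    ∃ s ∈ Icc s0 s1, ∃ u ∈ Icc r0 r1, ∃ k l : ℤ, X s = G u + k ∧ Y s = H u + l := by
  classical
  obtain ⟨ρ, hρL, hρc, hρ⟩ : ∃ ρ : ℝ → ℝ, (∀ y y', |ρ y - ρ y'| ≤ (1 / 8) * |y - y'|) ∧
      Continuous ρ ∧ ∀ s ∈ Icc s0 s1, ρ (X s) = Y s := by
    let f : ℝ → ℝ := fun x => if h : ∃ s ∈ Icc s0 s1, X s = x then Y h.choose else 0
    have hfv : ∀ s ∈ Icc s0 s1, f (X s) = Y s := by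
      intro s hs'
      have h : ∃ s' ∈ Icc s0 s1, X s' = X s := ⟨s, hs', rfl⟩
      have h1 : f (X s) = Y h.choose := dif_pos h
      rw [h1]
      have h2 := hsl h.choose h.choose_spec.1 s hs'
      rw [h.choose_spec.2, sub_self, abs_zero, mul_zero] at h2
      have h3 := abs_nonpos_iff.1 h2
      linarith
    have hf : LipschitzOnWith (1 / 8 : NNReal) f (X '' Icc s0 s1) := by
      refine LipschitzOnWith.of_dist_le_mul ?_
      rintro _ ⟨s, hs', rfl⟩ _ ⟨s', hs'', rfl⟩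
      rw [hfv s hs', hfv s' hs'', Real.dist_eq, Real.dist_eq]
      have := hsl s hs' s' hs''
      simpa using this
    obtain ⟨g, hg1, hg2⟩ := hf.extend_real
    refine ⟨g, fun y y' => ?_, hg1.continuous, fun s hs' => ?_⟩
    · have := hg1.dist_le_mul y y'
      rw [Real.dist_eq, Real.dist_eq] at this
      simpa using this
    · rw [← hg2 (mem_image_of_mem X hs'), hfv s hs']
  obtain ⟨u0, hu0, v0, hv0, hH2⟩ := hH2
  obtain ⟨m, hm⟩ : ∃ m : ℝ, m = (X s0 + X s1) / 2 := ⟨_, rfl⟩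
  obtain ⟨k, hk⟩ : ∃ k : ℤ, k = round (m - G u0) := ⟨_, rfl⟩
  have hk1 : |m - G u0 - k| ≤ 1 / 2 := by rw [hk]; exact abs_sub_round _
  have hin : ∀ u ∈ Icc r0 r1, |G u + k - m| ≤ 3 := by
    intro u hu
    have h1 := hG2 u hu u0 hu0
    rw [abs_lt] at h1
    rw [abs_le] at hk1 ⊢
    constructor <;> linarith [h1.1, h1.2, hk1.1, hk1.2]
  have hΔc : Continuous fun u => H u - ρ (G u + k) := hH.sub (hρc.comp (hG.add continuous_const))
  have hΔ : 1 ≤ |(H u0 - ρ (G u0 + k)) - (H v0 - ρ (G v0 + k))| := by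
    have h1 := hρL (G u0 + k) (G v0 + k)
    have h2 := hG2 u0 hu0 v0 hv0
    have h3 : G u0 + k - (G v0 + k) = G u0 - G v0 := by ring
    rw [h3] at h1
    have h4 : (H u0 - ρ (G u0 + k)) - (H v0 - ρ (G v0 + k)) =
      (H u0 - H v0) - (ρ (G u0 + k) - ρ (G v0 + k)) := by ring
    rw [h4]
    have h5 := abs_sub_abs_le_abs_sub (H u0 - H v0) (ρ (G u0 + k) - ρ (G v0 + k))
    linarith
  -- an integer value
  obtain ⟨w, hw, l, hl⟩ : ∃ w ∈ Icc r0 r1, ∃ l : ℤ, H w - ρ (G w + k) = l := by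
    have hpc : IsPreconnected (Icc r0 r1) := isPreconnected_Icc
    rcases le_total (H v0 - ρ (G v0 + k)) (H u0 - ρ (G u0 + k)) with h | h
    · rw [abs_of_nonneg (by linarith)] at hΔ
      have h1 : ((⌈H v0 - ρ (G v0 + k)⌉ : ℤ) : ℝ) ∈
          Icc (H v0 - ρ (G v0 + k)) (H u0 - ρ (G u0 + k)) :=
        ⟨Int.le_ceil _, by linarith [Int.ceil_lt_add_one (H v0 - ρ (G v0 + k))]⟩
      obtain ⟨w, hw, hw2⟩ := hpc.intermediate_value hv0 hu0 hΔc.continuousOn h1
      exact ⟨w, hw, _, hw2⟩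
    · rw [abs_sub_comm, abs_of_nonneg (by linarith)] at hΔ
      have h1 : ((⌈H u0 - ρ (G u0 + k)⌉ : ℤ) : ℝ) ∈
          Icc (H u0 - ρ (G u0 + k)) (H v0 - ρ (G v0 + k)) :=
        ⟨Int.le_ceil _, by linarith [Int.ceil_lt_add_one (H u0 - ρ (G u0 + k))]⟩
      obtain ⟨w, hw, hw2⟩ := hpc.intermediate_value hu0 hv0 hΔc.continuousOn h1
      exact ⟨w, hw, _, hw2⟩
  -- the point of the flat curve
  obtain ⟨s, hs', hsx⟩ : ∃ s ∈ Icc s0 s1, X s = G w + k := by
    have h1 := hin w hw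
    rw [abs_le] at h1
    have hpc : IsPreconnected (Icc s0 s1) := isPreconnected_Icc
    have hs0 : s0 ∈ Icc s0 s1 := ⟨le_rfl, hs⟩
    have hs1 : s1 ∈ Icc s0 s1 := ⟨hs, le_rfl⟩
    rcases le_total (X s0) (X s1) with h | h
    · rw [abs_of_nonneg (by linarith)] at h6
      exact hpc.intermediate_value hs0 hs1 hX ⟨by linarith, by linarith⟩
    · rw [abs_sub_comm, abs_of_nonneg (by linarith)] at h6
      exact hpc.intermediate_value hs1 hs0 hX ⟨by linarith, by linarith⟩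
  refine ⟨s, hs', w, hw, k, -l, hsx, ?_⟩
  rw [← hρ s hs', hsx]
  push_cast
  linarith

/-- every good line has a point whose orbit reaches the vertical segment -/
theorem good_hits {a b B : ℝ} (hB : 100 ≤ B) {n : ℕ} {t α h : ℝ} (hG : GoodL a b B n t α h)
    {x0 r0 r1 : ℝ} {k : ℕ}
    (hG2 : ∀ u ∈ Icc r0 r1, ∀ v ∈ Icc r0 r1, |gs a x0 k u - gs a x0 k v| < 2)
    (hH2 : ∃ u ∈ Icc r0 r1, ∃ v ∈ Icc r0 r1, 2 ≤ |gs a x0 (k + 1) u - gs a x0 (k + 1) v|) :
    ∃ s ∈ Icc α (α + h), ∃ u ∈ Icc r0 r1,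
      toT ((F a)^[k] ((F a)^[n] (ln b t s))) = toT (x0, u) := by
  have hB0 : 0 < B := by linarith
  obtain ⟨hh, hm1, hm2, -⟩ := id hG
  obtain ⟨m, hm⟩ : ∃ m, m = wx a b n (ln b t α) := ⟨_, rfl⟩
  rw [← hm] at hm1 hm2
  have h3B : 3 / B ≤ 3 / 100 := by
    rw [div_le_div_iff₀ hB0 (by norm_num)]
    linarith
  have hcur : ∀ s ∈ Icc α (α + h), ∀ s' ∈ Icc α (α + h),
      |((F a)^[n] (ln b t s)).1 - ((F a)^[n] (ln b t s')).1 - m * (s - s')| ≤
        3 / 100 * (|m| * |s - s'|) ∧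
      |((F a)^[n] (ln b t s)).2 - ((F a)^[n] (ln b t s')).2| ≤ 3 / 100 * (|m| * |s - s'|) := by
    intro s hs s' hs'
    obtain ⟨h1, h2⟩ := goodl_curve hB hG hs hs'
    rw [← hm] at h1 h2
    have h3 : 3 / B * |m| * |s - s'| ≤ 3 / 100 * (|m| * |s - s'|) := by
      rw [mul_assoc]
      exact mul_le_mul_of_nonneg_right h3B (by positivity)
    exact ⟨h1.trans h3, h2.trans h3⟩
  have hlow : ∀ s ∈ Icc α (α + h), ∀ s' ∈ Icc α (α + h),
      97 / 100 * (|m| * |s - s'|) ≤ |((F a)^[n] (ln b t s)).1 - ((F a)^[n] (ln b t s')).1| := by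
    intro s hs s' hs'
    have h1 := (hcur s hs s' hs').1
    have h2 := abs_sub_abs_le_abs_sub (m * (s - s'))
      (((F a)^[n] (ln b t s)).1 - ((F a)^[n] (ln b t s')).1)
    rw [abs_sub_comm (m * (s - s')), abs_mul] at h2
    linarith
  have hXc : ContinuousOn (fun s => ((F a)^[n] (ln b t s)).1) (Icc α (α + h)) := fun s _ =>
    (hasDerivAt_ln a b n t s).1.continuousAt.continuousWithinAt
  have hα : α ∈ Icc α (α + h) := ⟨le_rfl, by linarith⟩
  have hαh : α + h ∈ Icc α (α + h) := ⟨by linarith, le_rfl⟩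
  have h6 : 6 ≤ |((F a)^[n] (ln b t (α + h))).1 - ((F a)^[n] (ln b t α)).1| := by
    have h1 := hlow (α + h) hαh α hα
    have h2 : |α + h - α| = h := by rw [add_sub_cancel_left, abs_of_pos hh]
    rw [h2] at h1
    linarith
  have hsl : ∀ s ∈ Icc α (α + h), ∀ s' ∈ Icc α (α + h),
      |((F a)^[n] (ln b t s)).2 - ((F a)^[n] (ln b t s')).2| ≤
        (1 / 8) * |((F a)^[n] (ln b t s)).1 - ((F a)^[n] (ln b t s')).1| := by
    intro s hs s' hs'
    have h1 := (hcur s hs s' hs').2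
    have h2 := hlow s hs s' hs'
    have h3 : 0 ≤ |m| * |s - s'| := by positivity
    linarith
  obtain ⟨s, hs, u, hu, i, l, e1, e2⟩ := cross_flat (X := fun s => ((F a)^[n] (ln b t s)).1)
    (Y := fun s => ((F a)^[n] (ln b t s)).2) (G := gs a x0 k) (H := gs a x0 (k + 1))
    (by linarith) hXc h6 hsl (gs_cont a x0 k) (gs_cont a x0 (k + 1)) hG2 hH2
  refine ⟨s, hs, u, hu, ?_⟩
  have e3 : (F a)^[n] (ln b t s) = sh (gs a x0 k u, gs a x0 (k + 1) u) i l := Prod.ext e1 e2
  rw [e3, iter_sh, toT_sh, F_gs]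

end Pool.Agent.Helper46.EN
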