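import Pool.Agent.Helper46.EN.Sea1
import Pool.Agent.Helper18.EP.PosE

/-! Density clause (MP_9ee088_an), torus part: the component is null or meets every ball of radius `2 / |a|` in a set
of positive measure. -/

set_option autoImplicit false
open MeasureTheory Real Set

namespace Pool.Agent.Helper46.EN

open Pool.Agent.Helper18.UC Pool.Agent.Helper18.UY Pool.Agent.Helper18.EP

/-- the plane map is Lipschitz -/
theorem F_lip (a : ℝ) (q q' : ℝ × ℝ) : dist (F a q) (F a q') ≤ LL a * dist q q' := by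
  have hpi := Real.pi_pos
  have h1 : |q.1 - q'.1| ≤ dist q q' := by
    rw [Prod.dist_eq, ← Real.dist_eq]
    exact le_max_left _ _
  have h2 : |q.2 - q'.2| ≤ dist q q' := by
    rw [Prod.dist_eq, ← Real.dist_eq]
    exact le_max_right _ _
  have hd : 0 ≤ dist q q' := dist_nonneg
  have hs : |Real.sin (2 * π * q.1) - Real.sin (2 * π * q'.1)| ≤ 2 * π * |q.1 - q'.1| := by
    have h := Real.abs_sin_sub_sin_le (2 * π * q.1) (2 * π * q'.1)
    rw [← mul_sub, abs_mul, abs_of_pos (by positivity : (0:ℝ) < 2 * π)] at h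
    exact h
  rw [Prod.dist_eq (x := F a q), Real.dist_eq, Real.dist_eq]
  have hLL : LL a = 2 * π * |a| + 4 := rfl
  refine max_le ?_ ?_
  · have e : (F a q).1 - (F a q').1 = (2 * (q.1 - q'.1) - (q.2 - q'.2)) +
        a * (Real.sin (2 * π * q.1) - Real.sin (2 * π * q'.1)) := by
      unfold F
      ring
    rw [e]
    have h3 := abs_add_le (2 * (q.1 - q'.1) - (q.2 - q'.2))
      (a * (Real.sin (2 * π * q.1) - Real.sin (2 * π * q'.1)))
    have h4 := abs_sub (2 * (q.1 - q'.1)) (q.2 - q'.2)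
    rw [abs_mul, abs_of_pos (by norm_num : (0:ℝ) < 2)] at h4
    rw [abs_mul a] at h3
    have h5 : |a| * |Real.sin (2 * π * q.1) - Real.sin (2 * π * q'.1)| ≤
        |a| * (2 * π * |q.1 - q'.1|) := mul_le_mul_of_nonneg_left hs (abs_nonneg a)
    have h6 : |a| * (2 * π * |q.1 - q'.1|) ≤ |a| * (2 * π * dist q q') :=
      mul_le_mul_of_nonneg_left (mul_le_mul_of_nonneg_left h1 (by positivity)) (abs_nonneg a)
    rw [hLL]
    nlinarith
  · have e : (F a q).2 - (F a q').2 = q.1 - q'.1 := rfl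
    rw [e]
    have := LL_ge a
    nlinarith

theorem F_lip_iter (a : ℝ) (k : ℕ) (q q' : ℝ × ℝ) :
    dist ((F a)^[k] q) ((F a)^[k] q') ≤ LL a ^ k * dist q q' := by
  induction k with
  | zero => simp
  | succ k ih =>
    rw [Function.iterate_succ_apply', Function.iterate_succ_apply']
    refine (F_lip a _ _).trans ?_
    rw [pow_succ']
    rw [mul_assoc]
    exact mul_le_mul_of_nonneg_left ih (LL_pos a).le

private lemma dist_coe (x y : ℝ) : dist (x : UnitAddCircle) (y : UnitAddCircle) ≤ |x - y| := by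
  rw [dist_eq_norm, ← AddCircle.coe_sub, UnitAddCircle.norm_eq]
  have h := round_le (x - y) 0
  rwa [Int.cast_zero, sub_zero] at h

theorem dist_toT (q q' : ℝ × ℝ) : dist (toT q) (toT q') ≤ dist q q' := by
  rw [Prod.dist_eq (x := toT q), Prod.dist_eq (x := q), Real.dist_eq, Real.dist_eq]
  exact max_le_max (dist_coe _ _) (dist_coe _ _)

variable {a : ℝ} {S : T2 → T2} {W : Set (ℝ × ℝ)}

/-- the part of a good line which reaches the ball -/
theorem line_low (hS : IsS a S) (ha : 10 ≤ |a|) {b B : ℝ} (hB : 100 ≤ B) {K : ℕ} (hK : |a| ≤ 2 ^ K)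
    (z : T2) :
    ∃ k ≤ K, ∀ (n : ℕ) (t α h : ℝ), GoodL a b B n t α h →
      ENNReal.ofReal (1 / (|a| * (4 * B * LL a ^ K)) * h) ≤
        volume {s : ℝ | s ∈ Ico α (α + h) ∧
          S^[n + k] (toT (ln b t s)) ∈ Metric.ball z (2 / |a|)} := by
  have ha0 : 0 < |a| := by linarith
  have hB0 : 0 < B := by linarith
  have hLL := LL_ge a
  have hLL1 : 1 ≤ LL a ^ K := one_le_pow₀ (by linarith)
  obtain ⟨k, hk, hH2, hG2⟩ := exists_first ha (rep z).1 (rep z).2 hK
  refine ⟨k, hk, fun n t α h hG => ?_⟩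
  obtain ⟨ζ, hζ⟩ : ∃ ζ : ℝ, ζ = 1 / (|a| * (4 * B * LL a ^ K)) := ⟨_, rfl⟩
  have hden : 0 < |a| * (4 * B * LL a ^ K) := by positivity
  have hζ0 : 0 < ζ := by rw [hζ]; positivity
  have hζ2 : ζ ≤ 1 / 2 := by
    rw [hζ, div_le_div_iff₀ hden (by norm_num)]
    have h1 : 1 ≤ 4 * B * LL a ^ K := by nlinarith
    nlinarith
  have hζm : ζ * (|a| * (4 * B * LL a ^ K)) = 1 := by
    rw [hζ]
    exact one_div_mul_cancel hden.ne'
  rw [← hζ]
  obtain ⟨hh, -, hm2, -⟩ := id hG
  obtain ⟨s0, hs0, u, hu, hhit⟩ := good_hits hB hG hG2 hH2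
  have hζh : 0 < ζ * h := by positivity
  -- the points near the hit
  have hnear : ∀ s ∈ Icc α (α + h), |s - s0| < ζ * h →
      S^[n + k] (toT (ln b t s)) ∈ Metric.ball z (2 / |a|) := by
    intro s hs hss
    rw [Metric.mem_ball, S_iter hS, add_comm n k, Function.iterate_add_apply]
    obtain ⟨c1, c2⟩ := goodl_curve hB hG hs hs0
    obtain ⟨m, hm⟩ : ∃ m, m = wx a b n (ln b t α) := ⟨_, rfl⟩
    rw [← hm] at c1 c2 hm2
    have h3B : 3 / B ≤ 1 := by rw [div_le_one hB0]; linarith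
    have hms : 0 ≤ |m| * |s - s0| := by positivity
    have h3 : 3 / B * |m| * |s - s0| ≤ |m| * |s - s0| := by
      rw [mul_assoc]
      exact mul_le_of_le_one_left hms h3B
    have hd : dist ((F a)^[n] (ln b t s)) ((F a)^[n] (ln b t s0)) ≤ 2 * (|m| * |s - s0|) := by
      rw [Prod.dist_eq, Real.dist_eq, Real.dist_eq]
      refine max_le ?_ (by linarith)
      have h4 := abs_add_le (((F a)^[n] (ln b t s)).1 - ((F a)^[n] (ln b t s0)).1 - m * (s - s0))
        (m * (s - s0))
      rw [sub_add_cancel, abs_mul m] at h4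
      linarith
    have h5 : |m| * |s - s0| < 2 * B * ζ := by
      rcases eq_or_lt_of_le (abs_nonneg m) with h0 | h0
      · rw [← h0, zero_mul]
        positivity
      · calc |m| * |s - s0| < |m| * (ζ * h) := mul_lt_mul_of_pos_left hss h0
          _ = (|m| * h) * ζ := by ring
          _ ≤ 2 * B * ζ := mul_le_mul_of_nonneg_right hm2 hζ0.le
    have h6 : LL a ^ k ≤ LL a ^ K := pow_le_pow_right₀ (by linarith) hk
    have h7 := F_lip_iter a k ((F a)^[n] (ln b t s)) ((F a)^[n] (ln b t s0))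
    have h8 : dist ((F a)^[k] ((F a)^[n] (ln b t s))) ((F a)^[k] ((F a)^[n] (ln b t s0))) <
        1 / |a| := by
      calc dist ((F a)^[k] ((F a)^[n] (ln b t s))) ((F a)^[k] ((F a)^[n] (ln b t s0)))
          ≤ LL a ^ k * dist ((F a)^[n] (ln b t s)) ((F a)^[n] (ln b t s0)) := h7
        _ ≤ LL a ^ K * (2 * (|m| * |s - s0|)) := by
            refine mul_le_mul h6 hd dist_nonneg (by linarith)
        _ < LL a ^ K * (2 * (2 * B * ζ)) := by
            refine mul_lt_mul_of_pos_left ?_ (by linarith)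
            linarith
        _ = 1 / |a| := by
            rw [eq_div_iff ha0.ne', ← hζm]
            ring
    have h9 := dist_toT ((F a)^[k] ((F a)^[n] (ln b t s))) ((F a)^[k] ((F a)^[n] (ln b t s0)))
    rw [hhit] at h9
    have h10 : dist (toT ((rep z).1, u)) z ≤ 1 / |a| := by
      have h11 := dist_toT ((rep z).1, u) (rep z)
      rw [toT_rep] at h11
      refine h11.trans ?_
      rw [Prod.dist_eq, dist_self, Real.dist_eq]
      refine max_le (by positivity) ?_
      rw [abs_le]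
      constructor <;> linarith [hu.1, hu.2]
    have h12 := dist_triangle (toT ((F a)^[k] ((F a)^[n] (ln b t s)))) (toT ((rep z).1, u)) z
    have h13 : (2:ℝ) / |a| = 1 / |a| + 1 / |a| := by ring
    rw [h13]
    linarith
  rcases le_or_gt (s0 + ζ * h) (α + h) with hc | hc
  · calc ENNReal.ofReal (ζ * h) = volume (Ico s0 (s0 + ζ * h)) := by
          rw [Real.volume_Ico, add_sub_cancel_left]
      _ ≤ _ := by
          refine measure_mono fun s hs => ?_
          have h1 : s ∈ Ico α (α + h) := ⟨hs0.1.trans hs.1, hs.2.trans_le hc⟩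
          refine ⟨h1, hnear s ⟨h1.1, h1.2.le⟩ ?_⟩
          rw [abs_of_nonneg (by linarith [hs.1])]
          linarith [hs.2]
  · calc ENNReal.ofReal (ζ * h) = volume (Ioo (s0 - ζ * h) s0) := by
          rw [Real.volume_Ioo, sub_sub_cancel]
      _ ≤ _ := by
          refine measure_mono fun s hs => ?_
          have h2 : ζ * h ≤ 1 / 2 * h := mul_le_mul_of_nonneg_right hζ2 hh.le
          have h1 : s ∈ Ico α (α + h) := ⟨by linarith [hs.1], hs.2.trans_le hs0.2⟩
          refine ⟨h1, hnear s ⟨h1.1, h1.2.le⟩ ?_⟩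
          rw [abs_sub_comm, abs_of_nonneg (by linarith [hs.2])]
          linarith [hs.1]

/-- a set of points with enough exponent reaches every ball of radius `2 / |a|` -/
theorem reach (hS : IsS a S) (hW : Zone W) (ha : 10 ≤ |a|) {b B c c' κ κ' θ : ℝ}
    (hd : DataE a b B W c c' κ κ' θ) {E : Set T2} (hE : MeasurableSet E) (hEΩ : E ⊆ Om a W c κ)
    (hm : volume E ≠ 0) (z : T2) :
    ∃ N : ℕ, volume (E ∩ S^[N] ⁻¹' Metric.ball z (2 / |a|)) ≠ 0 := by
  have hB := hd.hB
  have hB0 : 0 < B := by linarith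
  have ha0 : 0 < |a| := by linarith
  have hLL := LL_pos a
  obtain ⟨K, hK⟩ : ∃ K : ℕ, |a| ≤ 2 ^ K := by
    obtain ⟨K, hK⟩ := pow_unbounded_of_one_lt |a| (by norm_num : (1:ℝ) < 2)
    exact ⟨K, hK.le⟩
  obtain ⟨k, -, hk⟩ := line_low (b := b) hS ha hB hK z
  obtain ⟨ζ, hζ⟩ : ∃ ζ : ℝ, ζ = 1 / (|a| * (4 * B * LL a ^ K)) := ⟨_, rfl⟩
  have hζ0 : 0 < ζ := by rw [hζ]; positivity
  rw [← hζ] at hk
  have hμ : 0 < volume.real E := ENNReal.toReal_pos hm (measure_ne_top _ _)
  obtain ⟨n, 𝒬, -, ⟨hQ1, -, hQ3, hQ4⟩, hvol⟩ := famE_fwd hW hd hE hEΩ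
    (show 0 < ζ / 2 by positivity) (show 0 < θ * volume.real E / 2 from by have := hd.hθ; positivity) 1
  have hθ := hd.hθ
  have hpos : 0 < volume.real (⋃₀ 𝒬) := by
    have : 0 < θ * volume.real E := mul_pos hθ hμ
    linarith
  obtain ⟨Q, hQ, hQv⟩ : ∃ Q ∈ 𝒬, volume Q ≠ 0 := by
    by_contra hcon
    push Not at hcon
    have h0 : volume (⋃₀ 𝒬) = 0 := (measure_sUnion_null_iff hQ1).2 hcon
    rw [measureReal_def, h0, ENNReal.toReal_zero] at hpos
    exact lt_irrefl _ hpos
  obtain ⟨α, h, T, hQe, hT, hT1, hI1, hh, hgood⟩ := hQ3 Q hQ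
  have hQ4' := hQ4 Q hQ
  refine ⟨n + k, fun h0 => ?_⟩
  obtain ⟨P, hP⟩ : ∃ P : Set T2, P = S^[n + k] ⁻¹' Metric.ball z (2 / |a|) := ⟨_, rfl⟩
  have hPm : MeasurableSet P := by
    rw [hP]
    exact ((S_mp hS).iterate (n + k)).measurable Metric.isOpen_ball.measurableSet
  rw [← hP] at h0
  -- the part of the strip which reaches the ball
  have hlow : ENNReal.ofReal ζ * volume Q ≤ volume (Q ∩ P) := by
    have e1 : Q ∩ P = strip b (Ico α (α + h)) T \ Pᶜ := by
      rw [← hQe, Set.sdiff_compl]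
    have e2 : volume Q = ENNReal.ofReal h * volume T := by
      rw [hQe, vol_strip b measurableSet_Ico hT hI1 hT1, Real.volume_Ico, add_sub_cancel_left]
    rw [e1, vol_strip_diff b measurableSet_Ico hT hI1 hT1 hPm.compl, e2, ← mul_assoc,
      ← ENNReal.ofReal_mul hζ0.le, ← setLIntegral_const]
    refine setLIntegral_mono' hT fun t ht => ?_
    refine (hk n t α h (hgood t ht)).trans (measure_mono fun s hs => ⟨hs.1, ?_⟩)
    rw [Set.mem_compl_iff, not_not, hP]
    exact hs.2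
  have hup : volume (Q ∩ P) ≤ ENNReal.ofReal (ζ / 2) * volume Q := by
    calc volume (Q ∩ P) ≤ volume ((Q \ E) ∪ (E ∩ P)) := by
          refine measure_mono fun w hw => ?_
          by_cases hwE : w ∈ E
          · exact Or.inr ⟨hwE, hw.2⟩
          · exact Or.inl ⟨hw.1, hwE⟩
      _ ≤ volume (Q \ E) + volume (E ∩ P) := measure_union_le _ _
      _ = volume (Q \ E) := by rw [h0, add_zero]
      _ ≤ _ := hQ4'
  have hQf : volume Q ≠ ⊤ := by
    have h1 : volume Q = ENNReal.ofReal h * volume T := by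
      rw [hQe, vol_strip b measurableSet_Ico hT hI1 hT1, Real.volume_Ico, add_sub_cancel_left]
    rw [h1]
    refine ENNReal.mul_ne_top ENNReal.ofReal_ne_top ?_
    refine ((measure_mono hT1).trans_lt ?_).ne
    rw [Real.volume_Ico]
    exact ENNReal.ofReal_lt_top
  have h1 := (ENNReal.mul_le_mul_iff_left hQv hQf).1 (hlow.trans hup)
  rw [ENNReal.ofReal_le_ofReal_iff (by positivity)] at h1
  linarith

/-- the component is null or meets every ball of radius `2 / |a|` in a set of positive measure -/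
theorem dens (hS : IsS a S) (hW : Zone W) (ha : 10 ≤ |a|) {b B : ℝ}
    (hm : volume (OO a b B W) ≠ 0) (z : T2) :
    volume (OO a b B W ∩ Metric.ball z (2 / |a|)) ≠ 0 := by
  obtain ⟨p, hp, hpm⟩ : ∃ p ∈ Ix a b B W, volume (Om a W p.1 p.2) ≠ 0 := by
    by_contra hcon
    push Not at hcon
    apply hm
    exact (measure_biUnion_null_iff (Set.to_countable _)).2 hcon
  obtain ⟨c', κ', θ, hd⟩ := id hp
  obtain ⟨N, hN⟩ := reach hS hW ha hd (measurableSet_Om hW _ _) subset_rfl hpm z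
  intro h0
  apply hN
  have hit : S^[N] ⁻¹' (OO a b B W) = OO a b B W := by
    clear hN
    induction N with
    | zero => rfl
    | succ N ih => rw [Function.iterate_succ', Set.preimage_comp, OO_inv hS hW, ih]
  have hsub : Om a W p.1 p.2 ∩ S^[N] ⁻¹' Metric.ball z (2 / |a|) ⊆
      S^[N] ⁻¹' (OO a b B W ∩ Metric.ball z (2 / |a|)) := by
    intro w hw
    refine ⟨?_, hw.2⟩
    have h1 : w ∈ OO a b B W := mem_iUnion₂.2 ⟨p, hp, hw.1⟩
    rw [← hit] at h1
    exact h1
  refine measure_mono_null hsub ?_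
  have h2 := ((S_mp hS).iterate N).measure_preimage
    ((measurableSet_OO hW b B).inter Metric.isOpen_ball.measurableSet).nullMeasurableSet
    (s := OO a b B W ∩ Metric.ball z (2 / |a|))
  rw [h2, h0]

/-- the form used in the assembly (`C = 2`, `A = 10`) -/
theorem dense_ball : ∃ C A : ℝ, 0 < C ∧ ∀ a : ℝ, A ≤ |a| → ∀ S : T2 → T2, IsS a S → ∀ b : ℝ, 0 ≤ b → b ≤ 1 →
    ∀ W : Set (ℝ × ℝ), Zone W → volume (OO a b 100 W) ≠ 0 → ∀ (z : T2) (r : ℝ), C / |a| ≤ r →
      volume (OO a b 100 W ∩ Metric.ball z r) ≠ 0 := by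
  refine ⟨2, 10, by norm_num, fun a ha S hS b _ _ W hW hm z r hr h0 => ?_⟩
  refine dens hS hW ha hm z (measure_mono_null ?_ h0)
  exact Set.inter_subset_inter_right _ (Metric.ball_subset_ball hr)

end Pool.Agent.Helper46.EN
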